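import Pool.Agent.Lib_helper93.Density.Sieve

set_option autoImplicit false

/-!
# The `D(-k²)`-triple `{1, 2k², 2k²+2k+1}` has no extension for almost all `k`

If `2k + 1` is divisible by `9` or by a prime `p ≡ 5, 7 (mod 12)`, then the triple
`{1, 2k², 2k²+2k+1}` has no extension at all.  Consequently the set of `k` for which an extension
exists has natural density zero.
-/

namespace Pool.Agent.Results.MP_a79b85_nt.AlmostAll

open Filter Topology

/-- `d` extends `T_k = {1, 2k², 2k²+2k+1}` to a `D(-k²)`-quadruple. -/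
def Extends (k d : ℤ) : Prop :=
  0 < d ∧ d ≠ 1 ∧ d ≠ 2 * k ^ 2 ∧ d ≠ 2 * k ^ 2 + 2 * k + 1 ∧
    IsSquare (1 * d - k ^ 2) ∧ IsSquare (2 * k ^ 2 * d - k ^ 2) ∧
      IsSquare ((2 * k ^ 2 + 2 * k + 1) * d - k ^ 2)

/-- Descent for the Pell equations `w² - (a²+1) y² = ±2a`, `a` odd: `a` divides `y² - 1`. -/
theorem descent {a : ℤ} (ha : 0 < a) (hodd : ¬ 2 ∣ a) : ∀ n : ℕ, ∀ y w : ℤ, y = n → 0 < y →
    (w ^ 2 = (a ^ 2 + 1) * y ^ 2 + 2 * a ∨ w ^ 2 + 2 * a = (a ^ 2 + 1) * y ^ 2) →
    a ∣ y ^ 2 - 1 := by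
  intro n
  induction n using Nat.strong_induction_on with
  | _ n ih =>
    intro y w hyn hy h
    wlog hw : 0 ≤ w generalizing w
    · exact this (-w) (by simpa using h) (by omega)
    by_cases hy1 : y = 1
    · subst hy1; simp
    have hy2 : 2 ≤ y := by omega
    -- the next solution
    have hstep : 0 < w - a * y ∧ w - a * y < y := by
      rcases h with h | h
      · have h1 : a * y < w := by nlinarith
        refine ⟨by linarith, ?_⟩
        have h2 : (w - a * y) * (w + a * y) = y ^ 2 + 2 * a := by linear_combination h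
        by_contra hge
        push Not at hge
        have h3 : y * (w + a * y) ≤ (w - a * y) * (w + a * y) :=
          mul_le_mul_of_nonneg_right hge (by nlinarith)
        nlinarith
      · have h1 : a * y < w := by
          by_contra hge
          push Not at hge
          rcases hge.lt_or_eq with hlt | heq
          · have h3 : w ≤ a * y - 1 := by omega
            have h4 : w ^ 2 ≤ (a * y - 1) ^ 2 := by
              exact pow_le_pow_left₀ hw h3 2
            nlinarith
          · rw [heq] at h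
            have h5 : 2 * a = y ^ 2 := by linear_combination h
            have h6 : (2 : ℤ) ∣ y ^ 2 := ⟨a, h5.symm⟩
            have h7 : (2 : ℤ) ∣ y := Int.prime_two.dvd_of_dvd_pow h6
            obtain ⟨t, rfl⟩ := h7
            exact hodd ⟨t ^ 2, by linarith⟩
        refine ⟨by linarith, ?_⟩
        have h2 : (w - a * y) * (w + a * y) = y ^ 2 - 2 * a := by linear_combination h
        by_contra hge
        push Not at hge
        have h3 : y * (w + a * y) ≤ (w - a * y) * (w + a * y) :=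
          mul_le_mul_of_nonneg_right hge (by nlinarith)
        nlinarith
    obtain ⟨hpos, hlt⟩ := hstep
    have hres := ih (w - a * y).toNat (by omega) (w - a * y) ((a ^ 2 + 1) * y - a * w)
      (by omega) hpos (by
        rcases h with h | h
        · right
          linear_combination (-1 : ℤ) * h
        · left
          linear_combination (-1 : ℤ) * h)
    -- congruences
    have hc : a ∣ y ^ 2 - (w - a * y) ^ 2 := by
      rcases h with h | h
      · refine ⟨-a * y ^ 2 - 2 + 2 * w * y - a * y ^ 2, ?_⟩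
        linear_combination (-1 : ℤ) * h
      · refine ⟨-a * y ^ 2 + 2 + 2 * w * y - a * y ^ 2, ?_⟩
        linear_combination (-1 : ℤ) * h
    have := dvd_add hc hres
    have e : y ^ 2 - (w - a * y) ^ 2 + ((w - a * y) ^ 2 - 1) = y ^ 2 - 1 := by ring
    rwa [e] at this

/-- Every extension makes `3` a square modulo `2k + 1`. -/
theorem sq_mod {k d : ℤ} (hk : 0 < k) (h1 : IsSquare (1 * d - k ^ 2))
    (h2 : IsSquare (2 * k ^ 2 * d - k ^ 2)) (h3 : IsSquare ((2 * k ^ 2 + 2 * k + 1) * d - k ^ 2)) :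
    ∃ x : ℤ, 2 * k + 1 ∣ x ^ 2 - 3 := by
  obtain ⟨x, hx⟩ := h1
  obtain ⟨u, hu⟩ := h2
  obtain ⟨z, hz⟩ := h3
  have hku : k ∣ u := by
    have : k ^ 2 ∣ u ^ 2 := ⟨2 * d - 1, by linear_combination (-1 : ℤ) * hu⟩
    exact (Int.pow_dvd_pow_iff (by norm_num)).mp this
  obtain ⟨y, rfl⟩ := hku
  have hy : y ^ 2 = 2 * d - 1 := by
    have : k ^ 2 * (y ^ 2 - (2 * d - 1)) = 0 := by linear_combination (-1 : ℤ) * hu
    rcases mul_eq_zero.mp this with h | h
    · exact absurd h (by positivity)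
    · linarith
  have hy0 : y ≠ 0 := by
    rintro rfl
    omega
  have hdvd : 2 * k + 1 ∣ y ^ 2 - 1 := by
    have := descent (a := 2 * k + 1) (by omega) (by omega) y.natAbs |y| (2 * z)
      (Int.abs_eq_natAbs y) (abs_pos.mpr hy0) (by
        left
        rw [sq_abs]
        linear_combination (-4 : ℤ) * hz - 2 * (2 * k ^ 2 + 2 * k + 1) * hy)
    rwa [sq_abs] at this
  obtain ⟨t, ht⟩ := hdvd
  refine ⟨2 * x, 2 * t + 1 - 2 * k, ?_⟩
  linear_combination (-4 : ℤ) * hx - 2 * hy + 2 * ht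

theorem not_sq_two_mod_three : ¬ IsSquare (2 : ZMod 3) := by decide

/-- `3` is not a square modulo a prime `p ≡ 5, 7 (mod 12)`. -/
theorem not_sq_three {p : ℕ} (hp : p.Prime) (hmod : p % 12 = 5 ∨ p % 12 = 7) (x : ℤ) :
    ¬ (p : ℤ) ∣ x ^ 2 - 3 := by
  intro h
  have : Fact p.Prime := ⟨hp⟩
  have h3 : IsSquare ((3 : ℕ) : ZMod p) := by
    refine ⟨(x : ZMod p), ?_⟩
    have := (ZMod.intCast_zmod_eq_zero_iff_dvd _ p).mpr h
    push_cast at this ⊢
    linear_combination (-1 : ZMod p) * this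
  have : Fact (Nat.Prime 3) := ⟨Nat.prime_three⟩
  have hp2 : p ≠ 2 := by rintro rfl; omega
  rcases hmod with hm | hm
  · -- `p ≡ 1 (mod 4)`
    have h4 : p % 4 = 1 := by omega
    have h5 := (ZMod.exists_sq_eq_prime_iff_of_mod_four_eq_one (p := p) (q := 3) h4
      (by norm_num)).mp h3
    have h6 : ((p : ℕ) : ZMod 3) = ((2 : ℕ) : ZMod 3) :=
      (ZMod.natCast_eq_natCast_iff _ _ _).mpr (by unfold Nat.ModEq; omega)
    rw [h6] at h5
    exact not_sq_two_mod_three h5
  · have h4 : p % 4 = 3 := by omega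
    have h5 := (ZMod.exists_sq_eq_prime_iff_of_mod_four_eq_three (p := p) (q := 3) h4
      (by norm_num) (by rintro rfl; omega)).mp h3
    have h6 : ((p : ℕ) : ZMod 3) = ((1 : ℕ) : ZMod 3) :=
      (ZMod.natCast_eq_natCast_iff _ _ _).mpr (by unfold Nat.ModEq; omega)
    rw [h6] at h5
    exact h5 ⟨1, by norm_num⟩

/-- The exceptional set: `9` does not divide `2k + 1` and no prime `p ≡ 5, 7 (mod 12)` divides
`2k + 1`. -/
def Exceptional : Set ℕ :=
  {k | ¬ 9 ∣ 2 * k + 1 ∧ ∀ p : ℕ, p.Prime → p ∣ 2 * k + 1 → p % 12 ≠ 5 ∧ p % 12 ≠ 7}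

/-- The triple `T_k` has no extension when `9` or a prime `p ≡ 5, 7 (mod 12)` divides `2k + 1`. -/
theorem no_extension {k : ℕ} (hk : 0 < k) (h : k ∉ Exceptional) (d : ℤ) : ¬ Extends k d := by
  rintro ⟨-, -, -, -, h1, h2, h3⟩
  obtain ⟨x, hx⟩ := sq_mod (k := (k : ℤ)) (by exact_mod_cast hk) h1 h2 h3
  have h' : 9 ∣ 2 * k + 1 ∨ ∃ p : ℕ, p.Prime ∧ p ∣ 2 * k + 1 ∧ (p % 12 = 5 ∨ p % 12 = 7) := by
    by_contra hno
    push Not at hno
    exact h ⟨hno.1, hno.2⟩
  rcases h' with h9 | ⟨p, hp, hpd, hm⟩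
  · have h9' : (9 : ℤ) ∣ x ^ 2 - 3 := by
      refine dvd_trans ?_ hx
      exact_mod_cast h9
    have h3' : (3 : ℤ) ∣ x ^ 2 := by
      have : (3 : ℤ) ∣ x ^ 2 - 3 := (by norm_num : (3 : ℤ) ∣ 9).trans h9'
      have := dvd_add this (dvd_refl 3)
      simpa using this
    obtain ⟨s, rfl⟩ := Int.prime_three.dvd_of_dvd_pow h3'
    obtain ⟨t, ht⟩ := h9'
    have : 9 * (s ^ 2 - t) = 3 := by linear_combination ht
    omega
  · refine not_sq_three hp hm x (dvd_trans ?_ hx)
    exact_mod_cast hpd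

/-- **Result.** For every positive integer `k` outside the explicit set `Exceptional` the
`D(-k²)`-triple `{1, 2k², 2k²+2k+1}` has no extension to a `D(-k²)`-quadruple, and `Exceptional`
has natural density zero. -/
theorem result :
    (∀ k : ℕ, 0 < k → k ∉ Exceptional → ∀ d : ℤ, ¬ Extends k d) ∧
    Tendsto (fun N : ℕ => ({k : ℕ | 0 < k ∧ k ≤ N ∧ k ∈ Exceptional}.ncard : ℝ) / N)
      atTop (𝓝 0) := by
  refine ⟨fun k hk h d => no_extension hk h d, ?_⟩
  classical
  have hunit : IsUnit ((5 : ℕ) : ZMod 12) := by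
    rw [ZMod.isUnit_iff_coprime]; norm_num
  rw [Metric.tendsto_atTop]
  intro ε hε
  obtain ⟨X₀, hX₀⟩ := Density93.density_zero (q := 12) hunit 2 1 (by norm_num) (ε := ε / 4)
    (by positivity)
  refine ⟨X₀ + 1, fun N hN => ?_⟩
  let S : Finset ℕ := (Finset.range (N + 1)).filter (fun k => 0 < k ∧ k ∈ Exceptional)
  have hcard : {k : ℕ | 0 < k ∧ k ≤ N ∧ k ∈ Exceptional}.ncard = S.card := by
    rw [← Set.ncard_coe_finset]
    congr 1
    ext k
    simp only [S, Finset.coe_filter, Finset.mem_range, Set.mem_ofPred_eq]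
    constructor
    · rintro ⟨h1, h2, h3⟩
      exact ⟨by omega, h1, h3⟩
    · rintro ⟨h1, h2, h3⟩
      exact ⟨h2, by omega, h3⟩
  have hS := hX₀ (N + 1) (by omega) S (Finset.filter_subset _ _) (by
    intro k hk p hp hpa hdvd
    rw [Finset.mem_filter] at hk
    exact (hk.2.2.2 p hp hdvd).1 ((ZMod.natCast_eq_natCast_iff _ _ _).mp hpa))
  have hN0 : (1 : ℝ) ≤ N := by
    have : 1 ≤ N := by omega
    exact_mod_cast this
  rw [hcard, Real.dist_eq, sub_zero, abs_of_nonneg (by positivity), div_lt_iff₀ (by linarith)]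
  push_cast at hS
  nlinarith

end Pool.Agent.Results.MP_a79b85_nt.AlmostAll
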