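import Pool.Agent.AMO.All

set_option autoImplicit false

/-!
# For all large `k` the triple `{1, 2k², 2k²+2k+1}` has at most one irregular extension
-/

namespace Pool.Agent.Results.MP_a79b85_nt.AtMostOne

/-- `d` extends `T_k = {1, 2k², 2k²+2k+1}` to a `D(-k²)`-quadruple. -/
def Extends (k d : ℤ) : Prop :=
  0 < d ∧ d ≠ 1 ∧ d ≠ 2 * k ^ 2 ∧ d ≠ 2 * k ^ 2 + 2 * k + 1 ∧
    IsSquare (1 * d - k ^ 2) ∧ IsSquare (2 * k ^ 2 * d - k ^ 2) ∧
      IsSquare ((2 * k ^ 2 + 2 * k + 1) * d - k ^ 2)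

/-- There is `k₀` such that for every `k ≥ k₀` any two extensions of `T_k` other than the regular
one `8k²+4k+1` are equal. -/
theorem result :
    ∃ k₀ : ℕ, ∀ k : ℕ, k₀ ≤ k → ∀ d d' : ℤ, Extends k d → Extends k d' →
      d ≠ 8 * (k : ℤ) ^ 2 + 4 * k + 1 → d' ≠ 8 * (k : ℤ) ^ 2 + 4 * k + 1 → d = d' :=
  AMO.at_most_one

end Pool.Agent.Results.MP_a79b85_nt.AtMostOne
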