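import Pool.Agent.DKP.All

set_option autoImplicit false

/-!
# Few `D(-k²)`-triples `{1, 2k², 2k²+2k+1}` have an extension
-/

namespace Pool.Agent.Results.MP_a79b85_nt.FewExtensions

/-- `d` extends `T_k = {1, 2k², 2k²+2k+1}` to a `D(-k²)`-quadruple. -/
def Extends (k d : ℤ) : Prop :=
  0 < d ∧ d ≠ 1 ∧ d ≠ 2 * k ^ 2 ∧ d ≠ 2 * k ^ 2 + 2 * k + 1 ∧
    IsSquare (1 * d - k ^ 2) ∧ IsSquare (2 * k ^ 2 * d - k ^ 2) ∧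
      IsSquare ((2 * k ^ 2 + 2 * k + 1) * d - k ^ 2)

/-- For every `ε > 0` at most `C X^ε` pairs `(k, d)` with `1 ≤ k ≤ X` and `d` an extension of
`T_k`. -/
theorem result :
    ∀ ε : ℝ, 0 < ε → ∃ C : ℝ, ∀ X : ℕ, 1 ≤ X →
      {p : ℕ × ℤ | 1 ≤ p.1 ∧ p.1 ≤ X ∧ Extends p.1 p.2}.Finite ∧
      ({p : ℕ × ℤ | 1 ≤ p.1 ∧ p.1 ≤ X ∧ Extends p.1 p.2}.ncard : ℝ) ≤ C * (X : ℝ) ^ ε := by
  intro ε hε
  obtain ⟨C, -, h⟩ := DKP.final_D_holds ε hε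
  exact ⟨C, h⟩

end Pool.Agent.Results.MP_a79b85_nt.FewExtensions
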