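import Pool.Agent.DKP.All
import Pool.Agent.DKP.All2

set_option autoImplicit false

/-!
# Irregular extensions of `{1, 2k², 2k²+2k+1}` lie between `k^B` and `exp((log k)^(2+δ))`
-/

open Filter

namespace Pool.Agent.Results.MP_a79b85_nt.SuperpolynomialExtensions

/-- `d` extends `T_k = {1, 2k², 2k²+2k+1}` to a `D(-k²)`-quadruple. -/
def Extends (k d : ℤ) : Prop :=
  0 < d ∧ d ≠ 1 ∧ d ≠ 2 * k ^ 2 ∧ d ≠ 2 * k ^ 2 + 2 * k + 1 ∧
    IsSquare (1 * d - k ^ 2) ∧ IsSquare (2 * k ^ 2 * d - k ^ 2) ∧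
      IsSquare ((2 * k ^ 2 + 2 * k + 1) * d - k ^ 2)

/-- For all `C` and `δ > 0` one has `C (log (k+1))^(2+δ/2) < (log k)^(2+δ)` for all large `k`. -/
theorem log_window (C δ : ℝ) (hC : 0 < C) (hδ : 0 < δ) :
    ∃ X : ℕ, 1 ≤ X ∧ ∀ k : ℕ, X < k →
      C * Real.log (k + 1) ^ (2 + δ / 2) < Real.log k ^ (2 + δ) := by
  have h1 : Tendsto (fun k : ℕ => Real.log (k : ℝ) ^ (δ / 2)) atTop atTop :=
    (tendsto_rpow_atTop (by linarith)).comp
      (Real.tendsto_log_atTop.comp tendsto_natCast_atTop_atTop)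
  obtain ⟨X, hX⟩ := eventually_atTop.1 (h1.eventually_gt_atTop (C * 2 ^ (2 + δ / 2)))
  refine ⟨X + 2, by omega, fun k hk => ?_⟩
  have hk2 : (2 : ℝ) ≤ k := by exact_mod_cast (by omega : 2 ≤ k)
  have hl : 0 < Real.log k := Real.log_pos (by linarith)
  have h2 : Real.log (k + 1) ≤ 2 * Real.log k := by
    have h3 : Real.log (k + 1) ≤ Real.log ((k : ℝ) ^ 2) :=
      Real.log_le_log (by linarith) (by nlinarith)
    rwa [Real.log_pow, Nat.cast_ofNat] at h3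
  have h4 : Real.log (k + 1) ^ (2 + δ / 2) ≤ 2 ^ (2 + δ / 2) * Real.log k ^ (2 + δ / 2) := by
    rw [← Real.mul_rpow (by norm_num) hl.le]
    exact Real.rpow_le_rpow (Real.log_nonneg (by linarith)) h2 (by linarith)
  have h5 : Real.log k ^ (2 + δ) = Real.log k ^ (δ / 2) * Real.log k ^ (2 + δ / 2) := by
    rw [← Real.rpow_add hl]
    congr 1
    ring
  have h6 : 0 < Real.log k ^ (2 + δ / 2) := Real.rpow_pos_of_pos hl _
  have h7 := hX k (by omega)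
  calc C * Real.log (k + 1) ^ (2 + δ / 2)
      ≤ C * (2 ^ (2 + δ / 2) * Real.log k ^ (2 + δ / 2)) :=
        mul_le_mul_of_nonneg_left h4 hC.le
    _ = (C * 2 ^ (2 + δ / 2)) * Real.log k ^ (2 + δ / 2) := by ring
    _ < Real.log k ^ (δ / 2) * Real.log k ^ (2 + δ / 2) := mul_lt_mul_of_pos_right h7 h6
    _ = Real.log k ^ (2 + δ) := h5.symm

/-- For every `B` and every `δ > 0`, all but finitely many pairs `(k, d)`, `k ≥ 1`, where `d` is
an extension of `T_k` other than the regular one `8k²+4k+1`, satisfy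
`k^B < d < exp((log k)^(2+δ))`. -/
theorem result :
    ∀ (B : ℕ) (δ : ℝ), 0 < δ →
      {p : ℕ × ℤ | 1 ≤ p.1 ∧ Extends p.1 p.2 ∧ p.2 ≠ 8 * (p.1 : ℤ) ^ 2 + 4 * p.1 + 1 ∧
        ¬ ((p.1 : ℤ) ^ B < p.2 ∧
          (p.2 : ℝ) < Real.exp (Real.log p.1 ^ (2 + δ)))}.Finite := by
  intro B δ hδ
  obtain ⟨C, hC, hE⟩ := DKP.final_E_holds (δ / 2) (by linarith)
  obtain ⟨X, hX1, hX⟩ := log_window C δ hC hδ
  obtain ⟨_, -, hD⟩ := DKP.final_D_holds 1 one_pos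
  refine ((DKP.final_F_holds B).union (hD X hX1).1).subset ?_
  rintro ⟨k, d⟩ ⟨hk, hext, hne, hnot⟩
  by_cases hdB : d ≤ (k : ℤ) ^ B
  · exact Or.inl ⟨hk, hext, hne, hdB⟩
  · refine Or.inr ⟨hk, ?_, hext⟩
    by_contra hkX
    refine hnot ⟨not_le.1 hdB, ?_⟩
    have h1 := hE k d hk hext
    have h2 := hX k (not_le.1 hkX)
    have hd : (0 : ℝ) < d := by exact_mod_cast hext.1
    exact (Real.log_lt_iff_lt_exp hd).1 (h1.trans_lt h2)

end Pool.Agent.Results.MP_a79b85_nt.SuperpolynomialExtensions
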